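import Mathlib
import Pool.Agent.Zk24.SL.Law0
import Pool.Agent.Zk24.SL.RajI

/-!
# One rational subspace which carries all the invariant measures of entropy zero

Furstenberg's conjecture for multiplicatively independent `p`, `q` says that all the probability
measures on `R/Z` which are invariant under `x ↦ p x`, `x ↦ q x` and singular to Lebesgue measure are
carried by the `Q`-linear subspace `Q` of `R`.  By the theorem of Rudolph and Johnson the map
`x ↦ p x` is injective on a Borel set of full measure for these measures.  It is shown that for every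
countable set of irrational numbers one Borel `Q`-linear subspace `L` of `R`, of Hausdorff dimension
zero, contains no number of this set, is a null set for all the Rajchman measures and carries all
the invariant measures for which `x ↦ p x` is injective on a set of full measure.  Moreover `L` can
be taken of measure zero for given laws with thick images, and for the laws of
`f (X) + ∑ c j y j + w`, where `f` is a real polynomial, `X` a random vector driven by rational
homotheties, the laws of the `y j` are invariant measures as above, and `f` has an irrational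
nonconstant coefficient or the law of `w` is thick.
-/

set_option autoImplicit false

open MeasureTheory Filter Topology
open Pool.Agent.Zk32 (ave Folner Lim)

namespace Pool.Agent.Results.MP_96e181_an.CommonSubspace

/-- the points of the circle with a real representative in `L` -/
def Mod (L : Submodule ℚ ℝ) : Set UnitAddCircle := {w | ∃ T : ℝ, (T : UnitAddCircle) = w ∧ T ∈ L}

/-- The law `ω` on the circle is thick: for every Borel set `B` of positive measure the averages of
the images of `ω` given `B` under `x ↦ p ^ i * q ^ j * x`, along some Folner sequence of sets of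
exponents `(i, j)`, converge to a law which is not singular to Lebesgue measure. -/
def Thick (p q : ℕ) (ω : Measure UnitAddCircle) : Prop :=
  ∀ B : Set UnitAddCircle, MeasurableSet B → ω B ≠ 0 →
    ∃ F : ℕ → Finset (ℕ × ℕ), Folner F ∧ ∃ κ : Measure UnitAddCircle, IsProbabilityMeasure κ ∧
      Lim p q F (ProbabilityTheory.cond ω B) κ ∧ ¬ κ ⟂ₘ (volume : Measure UnitAddCircle)

/-- The law `ω` on the circle is solid: for every Borel set `B` of positive measure no limit, along a
Folner sequence of sets of exponents `(i, j)`, of the averages of the images of `ω` given `B` under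
`x ↦ p ^ i * q ^ j * x` is singular to Lebesgue measure. -/
def Solid (p q : ℕ) (ω : Measure UnitAddCircle) : Prop :=
  ∀ B : Set UnitAddCircle, MeasurableSet B → ω B ≠ 0 →
    ∀ F : ℕ → Finset (ℕ × ℕ), Folner F → ∀ κ : Measure UnitAddCircle, IsProbabilityMeasure κ →
      Lim p q F (ProbabilityTheory.cond ω B) κ → ¬ κ ⟂ₘ (volume : Measure UnitAddCircle)

/-- The probability measure `ν` on `R/Z` is invariant under `x ↦ p x`, `x ↦ q x`, and `x ↦ p x` is
injective on a Borel set of full measure. -/
def Inv (p q : ℕ) (ν : Measure UnitAddCircle) : Prop :=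
  IsProbabilityMeasure ν ∧ MeasurePreserving (fun x : UnitAddCircle => p • x) ν ν ∧
    MeasurePreserving (fun x : UnitAddCircle => q • x) ν ν ∧
    ∃ B : Set UnitAddCircle, MeasurableSet B ∧ ν Bᶜ = 0 ∧
      Set.InjOn (fun x : UnitAddCircle => p • x) B

/-- The rational subspace `L` of `R` is a Borel set of Hausdorff dimension zero, contains `Q`, is of
measure zero modulo one for all solid laws, and carries every measure `ν` as above: for `ν`-almost
all `x` all the real representatives of `x` are in `L`. -/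
def Universal (p q : ℕ) (L : Submodule ℚ ℝ) : Prop :=
  MeasurableSet (L : Set ℝ) ∧ dimH (L : Set ℝ) = 0 ∧ (∀ a : ℚ, (a : ℝ) ∈ L) ∧
    (∀ ω : Measure UnitAddCircle, IsProbabilityMeasure ω → Solid p q ω → ω (Mod L) = 0) ∧
    ∀ ν : Measure UnitAddCircle, Inv p q ν → ∀ᵐ x ∂ν, ∀ X : ℝ, (X : UnitAddCircle) = x → X ∈ L

/-- The random vector `X`, defined on `(Ω, P)`, is driven by rational homotheties: `S` is a
conservative (nonsingular) map of `(Ω, P)`, for instance `P` is a finite measure preserved by `S`;
`X (S ω) = r ω X ω + e ω` with `r ω ≠ 0` in `Q` and `e ω` in `Q ^ d`; almost surely the products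
`r ω r (S ω) ⋯ r (S ^ (k - 1) ω)` tend to zero or to infinity in absolute value, or at least
`|log |·||` tends to infinity; and `X` is almost surely in no rational affine hyperplane. -/
def Driven.{u} {Ω : Type u} [MeasurableSpace Ω] {d : ℕ} (P : Measure Ω) (S : Ω → Ω)
    (X : Ω → Fin d → ℝ) : Prop :=
  Conservative S P ∧ Measurable X ∧
  (∃ (r : Ω → ℚ) (e : Ω → Fin d → ℚ), Measurable r ∧
    (∀ᵐ ω ∂P, r ω ≠ 0 ∧ ∀ i, X (S ω) i = r ω * X ω i + e ω i) ∧
    ∀ᵐ ω ∂P, Tendsto (fun k : ℕ => |Real.log (∏ j ∈ Finset.range k, (r (S^[j] ω) : ℝ))|)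
      atTop atTop) ∧
  ∀ (a : Fin d → ℚ) (b : ℚ), a ≠ 0 → P {ω | ∑ i, (a i : ℝ) * X ω i = b} = 0

/-- Let `p, q ≥ 2` be multiplicatively independent.

(1) Let `K` be a countable set of real numbers, and `ω l` thick laws. There is a universal rational
subspace `L` which contains no irrational number of `K`, with `ω l (L mod 1) = 0`.

(2) Rajchman laws are solid.

(3) Let `X` be driven by rational homotheties, `f` a real polynomial, and `(y 1, …, y r, w)` random
points independent of `X`, and let `f` have an irrational nonconstant coefficient, or `f (0) = 0`,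
the law of `w` be thick and the laws of the `y j` be invariant measures with `x ↦ p x` injective on a
Borel set of full measure.  There is a universal rational subspace `L` such that
`f (X) + ∑ c j y j + w` modulo one is almost surely not in `L mod 1`. -/
theorem result.{u, v} (p q : ℕ) (hp : 2 ≤ p) (hq : 2 ≤ q) (hpq : Irrational (Real.log p / Real.log q)) :
    -- (1)
    (∀ K : Set ℝ, K.Countable →
      ∀ ω : ℕ → Measure UnitAddCircle, (∀ l, IsProbabilityMeasure (ω l) ∧ Thick p q (ω l)) →
      ∃ L : Submodule ℚ ℝ, Universal p q L ∧ (∀ x ∈ L, x ∈ K → ∃ a : ℚ, x = a) ∧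
        ∀ l, ω l (Mod L) = 0) ∧
    -- (2)
    (∀ ω : Measure UnitAddCircle, IsProbabilityMeasure ω →
      Tendsto (fun n : ℤ => ∫ x : UnitAddCircle, (fourier n x : ℂ) ∂ω) cofinite (𝓝 0) →
      Solid p q ω) ∧
    -- (3)
    ∀ (Ω : Type u) (_ : MeasurableSpace Ω) (P : Measure Ω) (S : Ω → Ω) (d : ℕ)
      (X : Ω → Fin d → ℝ), IsProbabilityMeasure P → Driven P S X →
      ∀ (Ω' : Type v) (_ : MeasurableSpace Ω') (Q : Measure Ω') (r : ℕ)
      (y : Fin r → Ω' → UnitAddCircle) (w : Ω' → UnitAddCircle), IsProbabilityMeasure Q →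
      (∀ j, Measurable (y j)) → Measurable w →
      ∀ (f : MvPolynomial (Fin d) ℝ) (c : Fin r → ℤ),
        ((∃ α, α ≠ 0 ∧ Irrational (f.coeff α)) ∨
          (f.coeff 0 = 0 ∧ Thick p q (Q.map w) ∧ ∀ j, Inv p q (Q.map (y j)))) →
        ∃ L : Submodule ℚ ℝ, Universal p q L ∧ (P.prod Q) {z : Ω × Ω' |
          ((MvPolynomial.eval (X z.1) f : ℝ) : UnitAddCircle) + ∑ j, c j • y j z.2 + w z.2 ∈
            Mod L} = 0 := by
  refine ⟨?_, ?_, ?_⟩
  · intro K hK ω hω
    obtain ⟨L, hLm, hLd, hL1, hLs, hLK, hLω, hLν⟩ := Pool.Agent.Zk24.SL.exists_all0 hp hq hpq hK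
      (fun l => (hω l).1) (fun l => (hω l).2)
    refine ⟨L, ⟨hLm, hLd, fun a => ?_, hLs, ?_⟩, hLK, hLω⟩
    · have := L.smul_mem a hL1
      rwa [Rat.smul_def, mul_one] at this
    · rintro ν ⟨h1, h2, h3, h4⟩
      exact hLν ν h1 h2 h3 h4
  · intro ω hω h B hB hB0 F hF κ hκ hl
    have h1 := Pool.Agent.Zk24.SL.RajI.raj_lim hp hq hpq hF h hB hB0
    rw [Pool.Agent.Zk32.lim_unique hl h1]
    exact Pool.Agent.Zk32.vol_not_sing
  · intro Ω _ P S d X hP hX Ω' _ Q r y w hQ hy hw f c h
    have hWm : Measurable fun ω => MvPolynomial.eval (X ω) f :=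
      Pool.Agent.Zk24.SL.meas_ev hX.2.1 (RingHom.id ℝ) f
    have hadd : ∀ (L : Submodule ℚ ℝ), MeasurableSet (L : Set ℝ) → ∀ t : ℝ,
        (∃ α, (f + MvPolynomial.C t).coeff α ∉ L) →
        P {ω | MvPolynomial.eval (X ω) f + t ∈ L} = 0 := by
      intro L hL t h
      refine measure_eq_zero_iff_ae_notMem.2 ?_
      filter_upwards [Pool.Agent.Zk24.SL.driven_L hX hL h] with ω hω hmem
      apply hω
      rw [map_add, MvPolynomial.eval_C]
      exact hmem
    have hA : (∃ α, α ≠ 0 ∧ Irrational (f.coeff α)) → ∃ θ : ℝ, Irrational θ ∧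
        ∀ L : Submodule ℚ ℝ, MeasurableSet (L : Set ℝ) → (1 : ℝ) ∈ L → θ ∉ L →
          ∀ t : ℝ, P {ω | MvPolynomial.eval (X ω) f + t ∈ L} = 0 := by
      rintro ⟨α, hα, hαi⟩
      refine ⟨f.coeff α, hαi, fun L hL _ hαL t => hadd L hL t ⟨α, ?_⟩⟩
      classical
      rwa [MvPolynomial.coeff_add, MvPolynomial.coeff_C, if_neg (fun h => hα h.symm), add_zero]
    have hB : f.coeff 0 = 0 → ∀ L : Submodule ℚ ℝ, MeasurableSet (L : Set ℝ) → (1 : ℝ) ∈ L →
        ∀ t : ℝ, t ∉ L → P {ω | MvPolynomial.eval (X ω) f + t ∈ L} = 0 := by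
      intro hf0 L hL _ t ht
      refine hadd L hL t ⟨0, ?_⟩
      rwa [MvPolynomial.coeff_add, MvPolynomial.coeff_C, if_pos rfl, hf0, zero_add]
    obtain ⟨L, hLm, hLd, hL1, hLs, hL0, hLν⟩ := Pool.Agent.Zk24.SL.univ_law0 hp hq hpq hWm hy hw c (by
      rcases h with h | ⟨hf0, hth, hyS⟩
      · exact Or.inl (hA h)
      · exact Or.inr ⟨hB hf0, hth, fun j => ⟨(hyS j).2.1, (hyS j).2.2.1, (hyS j).2.2.2⟩⟩)
    refine ⟨L, ⟨hLm, hLd, fun a => ?_, hLs, ?_⟩, hL0⟩
    · have := L.smul_mem a hL1
      rwa [Rat.smul_def, mul_one] at this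
    · rintro ν ⟨h1, h2, h3, h4⟩
      exact hLν ν h1 h2 h3 h4

end Pool.Agent.Results.MP_96e181_an.CommonSubspace
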