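import Mathlib
import Pool.Agent.Zk24.SC.Last

set_option autoImplicit false

open MeasureTheory Filter Topology
open scoped ENNReal NNReal

/-- Let `p, q ≥ 2` be coprime and let `μ` be a probability measure on the circle `R/Z` invariant
under `x ↦ p x` and `x ↦ q x`.

(1) If `μ` is singular to Lebesgue measure, then its translate by `θ` is singular to it for
every `θ` which does not have a finite order prime to `p q`; and `μ` is singular to every
probability measure `η` which is conservative under translations by a countable set of such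
points `θ`: the translates of `η` are absolutely continuous with respect to `η` and for every
Borel set `E` of positive measure there is `θ` such that `x` and `x + θ` are in `E` with positive
probability. There is even one Borel set of full measure for `μ` and of measure zero for all the
translates of `η`.

(2) Suppose that `μ` is jointly ergodic and different from Lebesgue measure. For every `c > 0` there
are only finitely many `θ` for which the absolutely continuous part of the translate of `μ` by `θ`,
with respect to `μ`, has mass at least `c`. Let `X n` be independent random points of the circle such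
that `∑ X n` converges almost surely to a random point `S`, and suppose that (a) every `X n` has at
most `K` values and the law of `S` has no atoms (so the law of `S` is an arbitrary continuous
infinite convolution of measures with at most `K` atoms, for instance of two-point measures), or
(b) for some countable set `C`, some `c > 0` and some points `a n` the sum of
`P (X n ∈ C, X n ≠ a n)` over the `n` with `P (X n = a n) ≥ c` is infinite. There is one Borel set
`A` with `μ A = 1` such that `m S + t` is almost surely not in `A`, for all integers `m ≠ 0` and all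
points `t`. -/
theorem Pool.Agent.Results.MP_96e181_an.InfiniteConvolutions.result.{u} :
    ∀ p q : ℕ, 2 ≤ p → 2 ≤ q → Nat.Coprime p q →
    ∀ μ : Measure UnitAddCircle, IsProbabilityMeasure μ →
      MeasurePreserving (fun x : UnitAddCircle => p • x) μ μ →
      MeasurePreserving (fun x : UnitAddCircle => q • x) μ μ →
    (μ ⟂ₘ (volume : Measure UnitAddCircle) →
      (∀ θ : UnitAddCircle, (¬ ∃ t : ℕ, 1 ≤ t ∧ Nat.Coprime (p * q) t ∧ t • θ = 0) →
        μ.map (fun x => x + θ) ⟂ₘ μ) ∧
      ∀ (Γ : Set UnitAddCircle) (η : Measure UnitAddCircle), Γ.Countable →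
        (∀ θ ∈ Γ, ¬ ∃ t : ℕ, 1 ≤ t ∧ Nat.Coprime (p * q) t ∧ t • θ = 0) →
        IsProbabilityMeasure η → (∀ θ ∈ Γ, η.map (fun x => x + θ) ≪ η) →
        (∀ E : Set UnitAddCircle, MeasurableSet E → η E ≠ 0 →
          ∃ θ ∈ Γ, η {x | x ∈ E ∧ x + θ ∈ E} ≠ 0) →
        ∃ A : Set UnitAddCircle, MeasurableSet A ∧ μ A = 1 ∧
          ∀ t : UnitAddCircle, η {x | x + t ∈ A} = 0) ∧
    ((∀ E : Set UnitAddCircle, MeasurableSet E → (fun x : UnitAddCircle => p • x) ⁻¹' E = E →
        (fun x : UnitAddCircle => q • x) ⁻¹' E = E → μ E = 0 ∨ μ E = 1) →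
      μ ≠ volume →
      (∀ c : ℝ≥0, 0 < c → {θ : UnitAddCircle |
        (c : ℝ≥0∞) ≤ ∫⁻ x, (μ.map (fun x => x + θ)).rnDeriv μ x ∂μ}.Finite) ∧
      ∀ (Ω : Type u) (_ : MeasurableSpace Ω) (P : Measure Ω), IsProbabilityMeasure P →
        ∀ (X : ℕ → Ω → UnitAddCircle) (S : Ω → UnitAddCircle), (∀ n, Measurable (X n)) →
          ProbabilityTheory.iIndepFun X P →
          (∀ᵐ ω ∂P, Tendsto (fun N => ∑ i ∈ Finset.range N, X i ω) atTop (𝓝 (S ω))) →
          (((∃ K : ℕ, ∀ n, ∃ s : Finset UnitAddCircle, s.card ≤ K ∧ ∀ᵐ ω ∂P, X n ω ∈ s) ∧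
              ∀ t : UnitAddCircle, P {ω | S ω = t} = 0) ∨
            (∃ (C : Set UnitAddCircle) (c : ℝ≥0) (a : ℕ → UnitAddCircle), C.Countable ∧ 0 < c ∧
              ∑' n : {n : ℕ // (c : ℝ≥0∞) ≤ P {ω | X n ω = a n}},
                P {ω | X n ω ∈ C ∧ X n ω ≠ a n} = ∞)) →
          ∃ A : Set UnitAddCircle, MeasurableSet A ∧ μ A = 1 ∧
            ∀ m : ℤ, m ≠ 0 → ∀ t : UnitAddCircle, P {ω | m • S ω + t ∈ A} = 0) := by
  intro p q hp hq hpq μ hμ hμp hμq
  refine ⟨fun hsing => ⟨fun θ hθ => ?_, fun Γ η hΓ hΓ2 hη hqi hret => ?_⟩,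
    fun hJ hne => ⟨?_, fun Ω _ P hP X S hX hind hlim h => ?_⟩⟩
  · exact Pool.Agent.Zk24.SC.trans_cop hp hq hpq hμp hμq hsing θ hθ
  · exact Pool.Agent.Zk24.SC.cons_cop hp hq hpq hη ⟨hΓ, hqi, hret⟩ hΓ2 hμp hμq hsing
  · exact (Pool.Agent.Zk24.SC.translates hp hq hpq hμp hμq hJ hne).2
  · refine Pool.Agent.Zk24.SC.series_c hp hq hpq hμp hμq hJ hne hX hind hlim ?_
    rcases h with ⟨⟨K, hK⟩, hat⟩ | ⟨C, c, a, hC, hc, hdiv⟩
    · exact Pool.Agent.Zk24.SC.condC_of_values hX hlim hK hat
    · refine ⟨C, c, a, hC, hc, ?_⟩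
      rw [← hdiv]
      have h1 := tsum_subtype {n : ℕ | (c : ℝ≥0∞) ≤ P {ω | X n ω = a n}}
        (fun n => P {ω | X n ω ∈ C ∧ X n ω ≠ a n})
      refine Eq.trans ?_ h1.symm
      refine tsum_congr fun n => ?_
      rw [Set.indicator_apply]
      rfl
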