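import Mathlib
import Pool.Agent.Zk24.SC.Last

set_option autoImplicit false

open MeasureTheory Filter Topology
open scoped ENNReal NNReal

/-- Let `p, q ≥ 2` be multiplicatively independent.

(1) Let `X n` be independent random points of the circle `R/Z` such that `∑ X n` converges almost
surely to `S`, and suppose that (a) for some countable set `C` the probabilities that `X n` and an
independent copy of `X n` are in `C` and differ by a point of infinite order have a divergent sum,
or (b) for some `c > 0` there are infinitely many `n` for which the overlap of `X n` and `X n + θ`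
is at least `c` for some `θ ≠ 0` (for instance: two values have probability at least `c`). Let `μ`
be a probability measure invariant under `x ↦ p x` and `x ↦ q x`. If `μ` is singular to Lebesgue
measure, there is one Borel set `A` with `μ A = 1` such that `m S + t` is almost surely not in `A`,
for all integers `m ≠ 0` and all points `t`. If `μ` is absolutely continuous with respect to the
law of `m S + Y` for some `m ≠ 0` and some random point `Y` independent of `S`, then `μ` is
Lebesgue measure.

(2) The same for all probability measures `η` with the following property: for some `c > 0` there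
are measures `π k` on pairs, with both marginals below `η`, converging weakly to `c` times the
image of `η` on the diagonal, and carried by the pairs whose difference is in `C`, a
countable set of points of infinite order, or carried by the pairs whose difference is equal to
some `θ k ≠ 0`.

(3) The same for all probability measures `η` which are conservative under translations by a
countable set `Γ` of points of infinite order (for instance all atomless measures which are
quasi-invariant and ergodic under an irrational rotation): the translates of `η` by the points of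
`Γ` are absolutely continuous with respect to `η`, and for every Borel set `E` of positive measure
there is `θ` in `Γ` such that `x` and `x + θ` are in `E` with positive probability. -/
theorem Pool.Agent.Results.MP_96e181_an.RandomSeries.result.{u} :
    ∀ p q : ℕ, 2 ≤ p → 2 ≤ q → Irrational (Real.log (p : ℝ) / Real.log (q : ℝ)) →
    (∀ (Ω : Type u) (_ : MeasurableSpace Ω) (P : Measure Ω), IsProbabilityMeasure P →
      ∀ (X : ℕ → Ω → UnitAddCircle) (S : Ω → UnitAddCircle), (∀ n, Measurable (X n)) →
        ProbabilityTheory.iIndepFun X P →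
        (∀ᵐ ω ∂P, Tendsto (fun N => ∑ i ∈ Finset.range N, X i ω) atTop (𝓝 (S ω))) →
        ((∃ C : Set UnitAddCircle, C.Countable ∧
            ∑' n, (P.prod P) {w : Ω × Ω | X n w.1 ∈ C ∧ X n w.2 ∈ C ∧
              ¬ IsOfFinAddOrder (X n w.1 - X n w.2)} = ∞) ∨
          (∃ c : ℝ≥0, 0 < c ∧ ∃ᶠ n in atTop, ∃ θ : UnitAddCircle, θ ≠ 0 ∧
            ∀ A : Set UnitAddCircle, MeasurableSet A →
              (c : ℝ≥0∞) ≤ P {ω | X n ω ∈ A} + P {ω | X n ω + θ ∉ A})) →
        ∀ μ : Measure UnitAddCircle, IsProbabilityMeasure μ →
          MeasurePreserving (fun x : UnitAddCircle => p • x) μ μ →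
          MeasurePreserving (fun x : UnitAddCircle => q • x) μ μ →
          (μ ⟂ₘ (volume : Measure UnitAddCircle) →
            ∃ A : Set UnitAddCircle, MeasurableSet A ∧ μ A = 1 ∧
              ∀ m : ℤ, m ≠ 0 → ∀ t : UnitAddCircle, P {ω | m • S ω + t ∈ A} = 0) ∧
          (∀ (m : ℤ) (ν : Measure UnitAddCircle), m ≠ 0 → IsProbabilityMeasure ν →
            μ ≪ (P.map (fun ω => m • S ω)).conv ν → μ = volume)) ∧
    (∀ η : Measure UnitAddCircle, IsProbabilityMeasure η → ∀ c : ℝ, 0 < c →
      ∀ π : ℕ → Measure (UnitAddCircle × UnitAddCircle),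
        (∀ k, (π k).map Prod.fst ≤ η) → (∀ k, (π k).map Prod.snd ≤ η) →
        (∀ f : C(UnitAddCircle × UnitAddCircle, ℝ),
          Tendsto (fun k => ∫ z, f z ∂(π k)) atTop (𝓝 (c * ∫ x, f (x, x) ∂η))) →
        ((∃ C : Set UnitAddCircle, C.Countable ∧ ∀ k, ∀ᵐ z ∂(π k),
            z.2 - z.1 ∈ C ∧ ¬ IsOfFinAddOrder (z.2 - z.1)) ∨
          (∀ k, ∃ θ : UnitAddCircle, θ ≠ 0 ∧ ∀ᵐ z ∂(π k), z.2 - z.1 = θ)) →
        ∀ μ : Measure UnitAddCircle, IsProbabilityMeasure μ →
          MeasurePreserving (fun x : UnitAddCircle => p • x) μ μ →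
          MeasurePreserving (fun x : UnitAddCircle => q • x) μ μ →
          (μ ⟂ₘ (volume : Measure UnitAddCircle) →
            ∃ A : Set UnitAddCircle, MeasurableSet A ∧ μ A = 1 ∧
              ∀ t : UnitAddCircle, η {x | x + t ∈ A} = 0) ∧
          (∀ ν : Measure UnitAddCircle, IsProbabilityMeasure ν →
            μ ≪ η.conv ν → μ = volume)) ∧
    (∀ (Γ : Set UnitAddCircle) (η : Measure UnitAddCircle), Γ.Countable →
      (∀ θ ∈ Γ, ¬ IsOfFinAddOrder θ) → IsProbabilityMeasure η →
      (∀ θ ∈ Γ, η.map (fun x => x + θ) ≪ η) →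
      (∀ E : Set UnitAddCircle, MeasurableSet E → η E ≠ 0 →
        ∃ θ ∈ Γ, η {x | x ∈ E ∧ x + θ ∈ E} ≠ 0) →
      ∀ μ : Measure UnitAddCircle, IsProbabilityMeasure μ →
        MeasurePreserving (fun x : UnitAddCircle => p • x) μ μ →
        MeasurePreserving (fun x : UnitAddCircle => q • x) μ μ →
        (μ ⟂ₘ (volume : Measure UnitAddCircle) →
          ∃ A : Set UnitAddCircle, MeasurableSet A ∧ μ A = 1 ∧
            ∀ t : UnitAddCircle, η {x | x + t ∈ A} = 0) ∧
        (∀ ν : Measure UnitAddCircle, IsProbabilityMeasure ν →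
          μ ≪ η.conv ν → μ = volume)) := by
  intro p q hp hq hirr
  refine ⟨fun Ω _ P hP X S hX hind hlim h μ hμ hμp hμq => ?_,
    fun η hη c hc π h1 h2 h3 hπ μ hμ hμp hμq => ?_,
    fun Γ η hΓ hΓ2 hη hqi hret μ hμ hμp hμq => ?_⟩
  · exact Pool.Agent.Zk24.SC.part_one hp hq hirr hX hind hlim h μ hμp hμq
  · exact Pool.Agent.Zk24.SC.part_two hp hq hirr η c hc π ⟨h1, h2, h3⟩ hπ μ hμp hμq
  · exact Pool.Agent.Zk24.SC.cons_irr hp hq hirr hη ⟨hΓ, hqi, hret⟩ hΓ2 μ hμp hμq
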