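import Mathlib
import Pool.Agent.Zk24.NZ.TE

set_option autoImplicit false

open MeasureTheory Filter Topology
open scoped ENNReal

namespace Pool.Agent.Results.MP_96e181_an.RecurrentMeasures

/-- There is one Borel set `A` of full measure for `μ` such that, for `y` of law `ω`, almost surely
`m y + t` is not in `A`, for all integers `m ≠ 0` and all points `t`. -/
def Avoids (μ ω : Measure UnitAddCircle) : Prop :=
  ∃ A : Set UnitAddCircle, MeasurableSet A ∧ μ A = 1 ∧
    ∀ m : ℤ, m ≠ 0 → ∀ t : UnitAddCircle, ω {y | m • y + t ∈ A} = 0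

/-- A measure `ω` on the circle is transverse to `x ↦ p x`, `x ↦ q x` if for every probability
measure `μ` on the circle invariant under both maps: (a) if `μ` is singular to Lebesgue measure then
`Avoids μ ω`; (b) if, for some integer `m ≠ 0` and some random `z` independent of `y` of law `ω`,
`μ` is absolutely continuous with respect to the law of `m y + z`, then `μ` is Lebesgue measure. -/
def Transverse (p q : ℕ) (ω : Measure UnitAddCircle) : Prop :=
  ∀ μ : Measure UnitAddCircle, IsProbabilityMeasure μ →
    MeasurePreserving (fun x : UnitAddCircle => p • x) μ μ →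
    MeasurePreserving (fun x : UnitAddCircle => q • x) μ μ →
    (μ ⟂ₘ (volume : Measure UnitAddCircle) → Avoids μ ω) ∧
    (∀ (m : ℤ) (ν : Measure UnitAddCircle), m ≠ 0 → IsProbabilityMeasure ν →
      μ ≪ (ω.prod ν).map (fun z : UnitAddCircle × UnitAddCircle => m • z.1 + z.2) →
      μ = volume)

/-- The set `C` is countable, and for every Borel set `E` of positive measure, `y` and `y + θ` are in
`E` with positive probability for some `θ ≠ 0` in `C`. -/
def Recurrent (C : Set UnitAddCircle) (ω : Measure UnitAddCircle) : Prop :=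
  C.Countable ∧ ∀ E : Set UnitAddCircle, MeasurableSet E → ω E ≠ 0 →
    ∃ θ ∈ C, θ ≠ 0 ∧ ω {y | y ∈ E ∧ y + θ ∈ E} ≠ 0

/-- Let `p, q ≥ 2` be multiplicatively independent integers.

Let `b ≥ 1` be an integer such that no prime number divides `p`, `q` and `b` (so `b` is arbitrary if
`p` and `q` are coprime).

(1) Let `C` be a set of points of the circle such that every point of finite order in `C` is killed
by some power of `b`. Every probability measure recurrent under the translations by the nonzero
points of `C` is transverse to `x ↦ p x`, `x ↦ q x`.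

(2) Let `H` be a countable group of points of the circle, every point of finite order in `H` being
killed by some power of `b`, and let `ω` be a probability measure without atoms such that the Borel
sets invariant under translations by the points of `H` have measure zero or at least `e`, for some
`e > 0`. Then `ω` is transverse to `x ↦ p x`, `x ↦ q x`.

(3) Let moreover `X n` be random points with values in some cosets `a n + H`, such that all the tail
events of the sequence have probability zero or at least `e`, for some `e > 0` (for instance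
independent `X n`), and such that `∑ X n` converges almost surely to a sum `S` without atoms. The
law of `S` is transverse to `x ↦ p x`, `x ↦ q x`.

(4) Suppose that `p` and `q` are coprime and let `μ` be a probability measure other than Lebesgue
measure, invariant under `x ↦ p x` and `x ↦ q x` and jointly ergodic for `x ↦ p ^ n x`,
`x ↦ q ^ n x`, for every `n ≥ 1`. Then `Avoids μ ω` for every probability measure `ω` recurrent under
the translations by the nonzero points of any countable set `C`. -/
theorem result.{u} :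
    ∀ p q : ℕ, 2 ≤ p → 2 ≤ q → Irrational (Real.log p / Real.log q) →
    (∀ b : ℕ, 1 ≤ b → Nat.gcd (Nat.gcd p q) b = 1 →
      (∀ (C : Set UnitAddCircle) (ω : Measure UnitAddCircle),
        (∀ θ ∈ C, IsOfFinAddOrder θ → ∃ n : ℕ, b ^ n • θ = 0) →
        IsProbabilityMeasure ω → Recurrent C ω → Transverse p q ω) ∧
      (∀ H : AddSubgroup UnitAddCircle, (H : Set UnitAddCircle).Countable →
        (∀ θ ∈ H, IsOfFinAddOrder θ → ∃ n : ℕ, b ^ n • θ = 0) →
        (∀ ω : Measure UnitAddCircle, IsProbabilityMeasure ω → (∀ y : UnitAddCircle, ω {y} = 0) →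
          (∃ e : ℝ≥0∞, 0 < e ∧ ∀ A : Set UnitAddCircle, MeasurableSet A →
            (∀ x ∈ A, ∀ θ ∈ H, x + θ ∈ A) → ω A = 0 ∨ e ≤ ω A) →
          Transverse p q ω) ∧
        (∀ (Ω : Type u) (_ : MeasurableSpace Ω) (P : Measure Ω), IsProbabilityMeasure P →
          ∀ (X : ℕ → Ω → UnitAddCircle) (a : ℕ → UnitAddCircle) (S : Ω → UnitAddCircle),
            (∀ n, Measurable (X n)) → (∀ n, ∀ᵐ ω ∂P, X n ω - a n ∈ H) →
            (∃ e : ℝ≥0∞, 0 < e ∧ ∀ D : Set Ω, (∀ k : ℕ,
              MeasurableSet[⨆ n : ℕ, MeasurableSpace.comap (X (k + n)) inferInstance] D) →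
                P D = 0 ∨ e ≤ P D) →
            (∀ᵐ ω ∂P, Tendsto (fun N => ∑ i ∈ Finset.range N, X i ω) atTop (𝓝 (S ω))) →
            (∀ y : UnitAddCircle, P {ω | S ω = y} = 0) →
            Transverse p q (P.map S)))) ∧
    (Nat.Coprime p q → ∀ μ : Measure UnitAddCircle, IsProbabilityMeasure μ →
      MeasurePreserving (fun x : UnitAddCircle => p • x) μ μ →
      MeasurePreserving (fun x : UnitAddCircle => q • x) μ μ →
      (∀ n : ℕ, 1 ≤ n → ∀ E : Set UnitAddCircle, MeasurableSet E →
        (fun x : UnitAddCircle => p ^ n • x) ⁻¹' E = E →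
        (fun x : UnitAddCircle => q ^ n • x) ⁻¹' E = E → μ E = 0 ∨ μ E = 1) →
      μ ≠ volume → ∀ (C : Set UnitAddCircle) (ω : Measure UnitAddCircle),
        IsProbabilityMeasure ω → Recurrent C ω → Avoids μ ω) := by
  intro p q hp hq hirr
  have ret : ∀ (C : Set UnitAddCircle) (ω : Measure UnitAddCircle), Recurrent C ω →
      Pool.Agent.Zk24.NZ.Ret (C \ {0}) ω := by
    intro C ω h E hE hE0
    obtain ⟨θ, hθ, hθ0, h⟩ := h.2 E hE hE0
    exact ⟨θ, ⟨hθ, hθ0⟩, h⟩
  refine ⟨fun b hb hgcd => ?_, fun hpq μ hμ hμp hμq hTE hne C ω hω hrec => ?_⟩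
  · have hpq : Pool.Agent.Zk24.NZ.Hyp p q b := ⟨hirr, hgcd⟩
    have main : ∀ (C : Set UnitAddCircle) (ω : Measure UnitAddCircle), C.Countable →
        (∀ θ ∈ C, IsOfFinAddOrder θ → ∃ n : ℕ, b ^ n • θ = 0) →
        IsProbabilityMeasure ω → Pool.Agent.Zk24.NZ.Ret (C \ {0}) ω → Transverse p q ω := by
      intro C ω hC hCb hω hret μ hμ hμp hμq
      refine ⟨fun hsing => ?_, fun m ν hm hν hac => ?_⟩
      · exact Pool.Agent.Zk24.NZ.rec_set hp hq hb hpq hμp hμq hsing hC hCb hret
      · refine Pool.Agent.Zk24.NZ.rec_rigid hp hq hb hpq hμp hμq hC hCb hret hm ν ?_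
        have e := Pool.Agent.Zk32.law_conv ω ν m
        rw [← e] at hac
        exact hac
    refine ⟨fun C ω hCb hω hret => main C ω hret.1 hCb hω (ret C ω hret), fun H hH hHb => ?_⟩
    have main2 : ∀ ω : Measure UnitAddCircle, IsProbabilityMeasure ω →
        (∀ y : UnitAddCircle, ω {y} = 0) → (∃ e : ℝ≥0∞, 0 < e ∧
          Pool.Agent.Zk24.NZ.ErgH H e ω) → Transverse p q ω := by
      rintro ω hω hat ⟨e, he, herg⟩
      exact main H ω hH hHb hω (Pool.Agent.Zk24.NZ.ret_of_erg hH hat he.ne' herg)
    refine ⟨main2, fun Ω _ P hP X a S hX hXa ⟨e, he, htail⟩ hlim hat => ?_⟩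
    have hSa := Pool.Agent.Zk24.SC.aemeas hX hlim
    refine main2 _ (Measure.isProbabilityMeasure_map hSa) ?_
      ⟨e, he, Pool.Agent.Zk24.NZ.erg_series hX hXa hlim htail⟩
    intro y
    rw [Measure.map_apply_of_aemeasurable hSa (measurableSet_singleton y)]
    exact hat y
  · exact Pool.Agent.Zk24.NZ.te_rec_set hp hq hpq hμp hμq
      (fun n hn E hE h1 h2 => hTE n hn E hE h1 h2) hne hrec.1 (ret C ω hrec)

end Pool.Agent.Results.MP_96e181_an.RecurrentMeasures
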